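import Mathlib

namespace Pool.Agent.Results.MP_5741ae_al.No

/-- A skew shape `kap/mu` with rows `0, ..., len - 1` (row `0` on top). -/
structure Skew where
  len : ℕ
  kap : ℕ → ℕ
  mu : ℕ → ℕ
  kap_anti : Antitone kap
  mu_anti : Antitone mu
  mu_le : ∀ r, mu r ≤ kap r
  kap_zero : ∀ r, len ≤ r → kap r = 0

/-- Fillings: a cell is (row, column). -/
abbrev Tab := ℕ × ℕ → ℕ

/-- The cells of the shape. -/
def Skew.Mem (S : Skew) (c : ℕ × ℕ) : Prop := S.mu c.1 ≤ c.2 ∧ c.2 < S.kap c.1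

/-- Semistandard tableaux of shape `S` with entries in `1, ..., n` (zero off the shape). -/
def IsSSYT (n : ℕ) (S : Skew) (T : Tab) : Prop :=
  (∀ c, ¬ S.Mem c → T c = 0) ∧ (∀ c, S.Mem c → 1 ≤ T c ∧ T c ≤ n) ∧
  (∀ r j k, S.Mem (r, j) → S.Mem (r, k) → j ≤ k → T (r, j) ≤ T (r, k)) ∧
  (∀ r s j, S.Mem (r, j) → S.Mem (s, j) → r < s → T (r, j) < T (s, j))

/-- The cells in reading order: rows from bottom to top, each from left to right. -/
def Skew.reading (S : Skew) : List (ℕ × ℕ) :=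
  (List.range S.len).reverse.flatMap fun r =>
    (List.range' (S.mu r) (S.kap r - S.mu r)).map fun j => (r, j)

/-- Bracketing: entries `o` open, entries `c` close; `k` counts the brackets still open.
The output lists the cells of the unmatched closing entries, in order. -/
def unmatched (T : Tab) (o c : ℕ) : List (ℕ × ℕ) → ℕ → List (ℕ × ℕ)
  | [], _ => []
  | x :: l, k =>
    if T x = o then unmatched T o c l (k + 1)
    else if T x = c then (if k = 0 then x :: unmatched T o c l 0 else unmatched T o c l (k - 1))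
    else unmatched T o c l k

/-- `f_i`: the rightmost unmatched `i` becomes `i + 1` (`none` stands for `0`). -/
def fOp (S : Skew) (i : ℕ) (T : Tab) : Option Tab :=
  (unmatched T (i + 1) i S.reading 0).getLast?.map fun x => Function.update T x (i + 1)

/-- `e_i`: the leftmost unmatched `i + 1` becomes `i`. -/
def eOp (S : Skew) (i : ℕ) (T : Tab) : Option Tab :=
  (unmatched T i (i + 1) S.reading.reverse 0).getLast?.map fun x => Function.update T x i

open Classical in
/-- An operator restricted to a set `X`: set to `0` when the result leaves `X`. -/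
noncomputable def res (X : Set Tab) (op : Tab → Option Tab) (x : X) : Option X :=
  (op x.1).bind fun y => if h : y ∈ X then some ⟨y, h⟩ else none

/-- Crystal isomorphism between a set `X` of tableaux of shape `S` and a set `Y` of shape `S'`. -/
def Iso (n : ℕ) (S : Skew) (X : Set Tab) (S' : Skew) (Y : Set Tab) : Prop :=
  ∃ φ : X ≃ Y, ∀ i, 1 ≤ i → i < n → ∀ x : X,
    (res X (eOp S i) x).map φ = res Y (eOp S' i) (φ x) ∧
    (res X (fOp S i) x).map φ = res Y (fOp S' i) (φ x)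

/-- Flagged skew tableaux. -/
def Flagged (n : ℕ) (S : Skew) (b : ℕ → ℕ) : Set Tab :=
  {T | IsSSYT n S T ∧ ∀ c, S.Mem c → T c ≤ b c.1}

/-- `f_i ^ k`. -/
def fPow (S : Skew) (i : ℕ) : ℕ → Tab → Option Tab
  | 0, T => some T
  | k + 1, T => (fOp S i T).bind (fPow S i k)

/-- The Demazure operator `D_i`. -/
def demOp (S : Skew) (i : ℕ) (X : Set Tab) : Set Tab :=
  {y | ∃ x ∈ X, ∃ k, fPow S i k x = some y}

/-- The highest weight tableau of a straight shape: row `r` is filled with `r + 1`. -/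
def top (S : Skew) : Tab := fun c => if c.2 < S.kap c.1 then c.1 + 1 else 0

/-- `D_{i_1} ... D_{i_k} {u}`. -/
def demazure (S : Skew) (w : List ℕ) : Set Tab := w.foldr (demOp S) {top S}

/-- `w` is a reduced word in `s_1, ..., s_{n-1}` (`s_i` swaps `i` and `i + 1`): its length is the
number of inversions of the product. -/
def Reduced (n : ℕ) (w : List ℕ) : Prop :=
  (∀ i ∈ w, 1 ≤ i ∧ i < n) ∧
  (((Finset.Icc 1 n) ×ˢ (Finset.Icc 1 n)).filter fun p => p.1 < p.2 ∧
    (w.map fun i => Equiv.swap i (i + 1)).prod p.2 <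
      (w.map fun i => Equiv.swap i (i + 1)).prod p.1).card = w.length

/-! ### The lattice obstruction -/

theorem lat {α : Type*} [DistribLattice α] (Y : Set α) (σ : α → ℕ) (s : ℕ)
    (hi : ∀ a ∈ Y, ∀ b ∈ Y, a ⊓ b ∈ Y) (hs : ∀ a ∈ Y, ∀ b ∈ Y, a ⊔ b ∈ Y)
    (hadd : ∀ a b, σ (a ⊓ b) + σ (a ⊔ b) = σ a + σ b)
    (hmono : ∀ a ∈ Y, ∀ b ∈ Y, a ≤ b → σ b ≤ σ a → a = b)
    (y0 a1 a2 x y z q t : α) (hx : x ∈ Y) (hy : y ∈ Y) (hz : z ∈ Y)
    (hall : ∀ a ∈ Y, a = y0 ∨ a = a1 ∨ a = a2 ∨ a = x ∨ a = y ∨ a = z ∨ a = q ∨ a = t)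
    (r0 : σ y0 = s) (r1 : σ a1 = s + 1) (r2 : σ a2 = s + 1) (r3 : σ x = s + 2)
    (r4 : σ y = s + 2) (r5 : σ z = s + 2) (r6 : σ q = s + 3) (r7 : σ t = s + 4)
    (hxy : x ≠ y) (hxz : x ≠ z) (hyz : y ≠ z) : False := by
  have key : ∀ a ∈ Y, ∀ b ∈ Y, σ a = s + 2 → σ b = s + 2 → a ≠ b →
      (a ⊓ b = y0 ∧ a ⊔ b = t) ∨ ((a ⊓ b = a1 ∨ a ⊓ b = a2) ∧ a ⊔ b = q) := by
    intro a ha b hb ea eb hab
    have hlt : σ (a ⊓ b) < s + 2 := by
      by_contra h
      have h1 := hmono _ (hi a ha b hb) a ha inf_le_left (by omega)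
      exact hab (hmono a ha b hb (inf_eq_left.1 h1) (by omega))
    have h2 := hadd a b
    rcases hall _ (hi a ha b hb) with h | h | h | h | h | h | h | h <;>
    rcases hall _ (hs a ha b hb) with g | g | g | g | g | g | g | g <;>
    first
      | exact Or.inl ⟨h, g⟩
      | exact Or.inr ⟨Or.inl h, g⟩
      | exact Or.inr ⟨Or.inr h, g⟩
      | (exfalso; rw [h] at hlt h2; rw [g] at h2; omega)
  have canc : ∀ a b c : α, a ⊓ b = a ⊓ c → a ⊔ b = a ⊔ c → b = c := fun a b c h g =>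
    eq_of_inf_eq_sup_eq (a := a) (by simpa [inf_comm] using h) (by simpa [sup_comm] using g)
  have c1 : x ⊓ y = x ⊓ z → x ⊔ y = x ⊔ z → False := fun h g => hyz (canc x y z h g)
  have c2 : x ⊓ y = y ⊓ z → x ⊔ y = y ⊔ z → False := fun h g =>
    hxz (canc y x z (by rw [inf_comm, h]) (by rw [sup_comm, g]))
  have c3 : x ⊓ z = y ⊓ z → x ⊔ z = y ⊔ z → False := fun h g =>
    hxy (canc z x y (by rw [inf_comm, h, inf_comm]) (by rw [sup_comm, g, sup_comm]))
  have hq : ∀ a ∈ Y, ∀ b ∈ Y, ∀ c ∈ Y, ∀ d ∈ Y, a ⊔ b = t → c ⊔ d = q → a ≤ q → b ≤ q → False := by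
    intro a ha b hb c hc d hd g g' h1 h2
    have := hmono t (g ▸ hs a ha b hb) q (g' ▸ hs c hc d hd) (g ▸ sup_le h1 h2) (by omega)
    rw [this] at r7; omega
  rcases key x hx y hy r3 r4 hxy with ⟨h1, g1⟩ | ⟨h1, g1⟩ <;>
  rcases key x hx z hz r3 r5 hxz with ⟨h2, g2⟩ | ⟨h2, g2⟩ <;>
  rcases key y hy z hz r4 r5 hyz with ⟨h3, g3⟩ | ⟨h3, g3⟩
  · exact c1 (h1.trans h2.symm) (g1.trans g2.symm)
  · exact c1 (h1.trans h2.symm) (g1.trans g2.symm)
  · exact c2 (h1.trans h3.symm) (g1.trans g3.symm)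
  · exact hq x hx y hy x hx z hz g1 g2 (g2 ▸ le_sup_left) (g3 ▸ le_sup_left)
  · exact c3 (h2.trans h3.symm) (g2.trans g3.symm)
  · exact hq x hx z hz x hx y hy g2 g1 (g1 ▸ le_sup_left) (g3 ▸ le_sup_right)
  · exact hq y hy z hz x hx y hy g3 g1 (g1 ▸ le_sup_right) (g2 ▸ le_sup_right)
  · rcases h1 with h1 | h1 <;> rcases h2 with h2 | h2 <;> rcases h3 with h3 | h3 <;>
    first
      | exact c1 (h1.trans h2.symm) (g1.trans g2.symm)
      | exact c2 (h1.trans h3.symm) (g1.trans g3.symm)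
      | exact c3 (h2.trans h3.symm) (g2.trans g3.symm)

theorem mem_reading (S : Skew) (c : ℕ × ℕ) : c ∈ S.reading ↔ S.Mem c := by
  obtain ⟨r, j⟩ := c
  simp only [Skew.reading, List.mem_flatMap, List.mem_reverse, List.mem_range, List.mem_map,
    List.mem_range'_1, Prod.mk.injEq, Skew.Mem]
  constructor
  · rintro ⟨a, _, b, ⟨h1, h2⟩, rfl, rfl⟩
    have := S.mu_le a
    omega
  · rintro ⟨h1, h2⟩
    refine ⟨r, ?_, j, ⟨h1, by omega⟩, rfl, rfl⟩
    by_contra h
    have := S.kap_zero r (by omega)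
    omega

theorem mem_unmatched (T : Tab) (o c : ℕ) (l : List (ℕ × ℕ)) (k : ℕ) (x : ℕ × ℕ)
    (h : x ∈ unmatched T o c l k) : x ∈ l ∧ T x = c := by
  induction l generalizing k with
  | nil => simp [unmatched] at h
  | cons a l ih =>
    unfold unmatched at h
    split_ifs at h with h1 h2 h3
    · exact ⟨List.mem_cons_of_mem _ (ih _ h).1, (ih _ h).2⟩
    · rcases List.mem_cons.1 h with rfl | h
      · exact ⟨List.mem_cons_self, h2⟩
      · exact ⟨List.mem_cons_of_mem _ (ih _ h).1, (ih _ h).2⟩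
    · exact ⟨List.mem_cons_of_mem _ (ih _ h).1, (ih _ h).2⟩
    · exact ⟨List.mem_cons_of_mem _ (ih _ h).1, (ih _ h).2⟩

/-- The sum of the entries. -/
def wt (S : Skew) (T : Tab) : ℕ := ∑ c ∈ S.reading.toFinset, T c

theorem wt_f (S : Skew) (i : ℕ) (T U : Tab) (h : fOp S i T = some U) : wt S U = wt S T + 1 := by
  unfold fOp at h
  obtain ⟨x, hx, rfl⟩ := Option.map_eq_some_iff.1 h
  obtain ⟨h1, h2⟩ := mem_unmatched _ _ _ _ _ _ (List.mem_of_getLast? hx)
  have h3 : x ∈ S.reading.toFinset := List.mem_toFinset.2 h1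
  unfold wt
  rw [Finset.sum_update_of_mem h3, ← Finset.add_sum_erase _ T h3, h2, Finset.sdiff_singleton_eq_erase]
  ring

/-- The shape `(2,1,1)`. -/
def lam : Skew where
  len := 3
  kap := fun r => if r = 0 then 2 else if r < 3 then 1 else 0
  mu := fun _ => 0
  kap_anti := by
    intro a b h
    dsimp only
    split_ifs <;> omega
  mu_anti := fun _ _ _ => le_rfl
  mu_le := fun _ => Nat.zero_le _
  kap_zero := by
    intro r h
    rw [if_neg (by omega), if_neg (by omega)]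

def mk (a b c d : ℕ) : Tab := fun x =>
  if x = (0, 0) then a else if x = (0, 1) then b else if x = (1, 0) then c
  else if x = (2, 0) then d else 0

theorem rd : lam.reading = [(2, 0), (1, 0), (0, 0), (0, 1)] := by decide

theorem up0 (a b c d v : ℕ) : Function.update (mk a b c d) (0, 0) v = mk v b c d := by
  funext x; by_cases h : x = (0, 0) <;> simp [mk, Function.update, h]
theorem up1 (a b c d v : ℕ) : Function.update (mk a b c d) (0, 1) v = mk a v c d := by
  funext x; by_cases h : x = (0, 1) <;> simp [mk, Function.update, h]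
theorem up2 (a b c d v : ℕ) : Function.update (mk a b c d) (1, 0) v = mk a b v d := by
  funext x; by_cases h : x = (1, 0) <;> simp [mk, Function.update, h]
theorem up3 (a b c d v : ℕ) : Function.update (mk a b c d) (2, 0) v = mk a b c v := by
  funext x; by_cases h : x = (2, 0) <;> simp [mk, Function.update, h]

theorem m0 (a b c d : ℕ) : mk a b c d (0, 0) = a := rfl
theorem m1 (a b c d : ℕ) : mk a b c d (0, 1) = b := rfl
theorem m2 (a b c d : ℕ) : mk a b c d (1, 0) = c := rfl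
theorem m3 (a b c d : ℕ) : mk a b c d (2, 0) = d := rfl

theorem top_eq : top lam = mk 1 1 2 3 := by
  funext ⟨r, j⟩
  simp only [top, lam, mk, Prod.mk.injEq]
  split_ifs <;> omega

theorem mk_inj {a b c d a' b' c' d' : ℕ} (h : mk a b c d = mk a' b' c' d') :
    a = a' ∧ b = b' ∧ c = c' ∧ d = d' :=
  ⟨congrFun h (0, 0), congrFun h (0, 1), congrFun h (1, 0), congrFun h (2, 0)⟩

theorem string0 {S : Skew} {i : ℕ} {x : Tab} (h : fOp S i x = none) (y : Tab) :
    (∃ k, fPow S i k x = some y) ↔ y = x := by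
  constructor
  · rintro ⟨k, hk⟩
    cases k with
    | zero => exact (Option.some.inj hk).symm
    | succ k => simp [fPow, h] at hk
  · rintro rfl; exact ⟨0, rfl⟩

theorem stringS {S : Skew} {i : ℕ} {x x' : Tab} (h : fOp S i x = some x') (y : Tab) :
    (∃ k, fPow S i k x = some y) ↔ y = x ∨ ∃ k, fPow S i k x' = some y := by
  constructor
  · rintro ⟨k, hk⟩
    cases k with
    | zero => exact Or.inl (Option.some.inj hk).symm
    | succ k => exact Or.inr ⟨k, by simpa [fPow, h] using hk⟩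
  · rintro (rfl | ⟨k, hk⟩)
    · exact ⟨0, rfl⟩
    · exact ⟨k + 1, by simpa [fPow, h] using hk⟩

theorem e1 : fOp lam 1 (mk 1 1 2 3) = some (mk 1 2 2 3) := by
  simp [fOp, rd, unmatched, m0, m1, m2, m3, up0, up1, up2, up3]
theorem e2 : fOp lam 1 (mk 1 2 2 3) = none := by
  simp [fOp, rd, unmatched, m0, m1, m2, m3, up0, up1, up2, up3]
theorem e3 : fOp lam 3 (mk 1 1 2 3) = some (mk 1 1 2 4) := by
  simp [fOp, rd, unmatched, m0, m1, m2, m3, up0, up1, up2, up3]
theorem e4 : fOp lam 3 (mk 1 1 2 4) = none := by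
  simp [fOp, rd, unmatched, m0, m1, m2, m3, up0, up1, up2, up3]
theorem e5 : fOp lam 3 (mk 1 2 2 3) = some (mk 1 2 2 4) := by
  simp [fOp, rd, unmatched, m0, m1, m2, m3, up0, up1, up2, up3]
theorem e6 : fOp lam 3 (mk 1 2 2 4) = none := by
  simp [fOp, rd, unmatched, m0, m1, m2, m3, up0, up1, up2, up3]
theorem e7 : fOp lam 2 (mk 1 1 2 3) = none := by
  simp [fOp, rd, unmatched, m0, m1, m2, m3, up0, up1, up2, up3]
theorem e8 : fOp lam 2 (mk 1 1 2 4) = some (mk 1 1 3 4) := by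
  simp [fOp, rd, unmatched, m0, m1, m2, m3, up0, up1, up2, up3]
theorem e9 : fOp lam 2 (mk 1 1 3 4) = none := by
  simp [fOp, rd, unmatched, m0, m1, m2, m3, up0, up1, up2, up3]
theorem e10 : fOp lam 2 (mk 1 2 2 3) = some (mk 1 3 2 3) := by
  simp [fOp, rd, unmatched, m0, m1, m2, m3, up0, up1, up2, up3]
theorem e11 : fOp lam 2 (mk 1 3 2 3) = none := by
  simp [fOp, rd, unmatched, m0, m1, m2, m3, up0, up1, up2, up3]
theorem e12 : fOp lam 2 (mk 1 2 2 4) = some (mk 1 3 2 4) := by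
  simp [fOp, rd, unmatched, m0, m1, m2, m3, up0, up1, up2, up3]
theorem e13 : fOp lam 2 (mk 1 3 2 4) = some (mk 1 3 3 4) := by
  simp [fOp, rd, unmatched, m0, m1, m2, m3, up0, up1, up2, up3]
theorem e14 : fOp lam 2 (mk 1 3 3 4) = none := by
  simp [fOp, rd, unmatched, m0, m1, m2, m3, up0, up1, up2, up3]

theorem dem (y : Tab) : y ∈ demazure lam [2, 3, 1] ↔
    y = mk 1 1 2 3 ∨ y = mk 1 1 2 4 ∨ y = mk 1 2 2 3 ∨ y = mk 1 1 3 4 ∨ y = mk 1 3 2 3 ∨
    y = mk 1 2 2 4 ∨ y = mk 1 3 2 4 ∨ y = mk 1 3 3 4 := by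
  simp only [demazure, List.foldr, demOp, Set.mem_setOf_eq, Set.mem_singleton_iff, top_eq,
    exists_eq_left, stringS e1, string0 e2, exists_eq_or_imp, stringS e3, string0 e4, stringS e5,
    string0 e6, or_assoc, string0 e7, stringS e8, string0 e9, stringS e10, string0 e11, stringS e12,
    stringS e13, string0 e14]
  tauto

theorem step {n : ℕ} {S S' : Skew} {X Y : Set Tab} (φ : X ≃ Y)
    (h : ∀ i, 1 ≤ i → i < n → ∀ x : X,
      (res X (eOp S i) x).map φ = res Y (eOp S' i) (φ x) ∧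
      (res X (fOp S i) x).map φ = res Y (fOp S' i) (φ x))
    (i : ℕ) (h1 : 1 ≤ i) (h2 : i < n) (x y : X) (e : fOp S i x.1 = some y.1) :
    wt S' (φ y).1 = wt S' (φ x).1 + 1 := by
  have h3 := (h i h1 h2 x).2
  have h4 : res X (fOp S i) x = some y := by simp [res, e]
  rw [h4, Option.map_some] at h3
  unfold res at h3
  obtain ⟨u, hu, hv⟩ := Option.bind_eq_some_iff.1 h3.symm
  split_ifs at hv with hm
  have : u = (φ y).1 := congrArg Subtype.val (Option.some.inj hv)
  exact wt_f S' i _ _ (this ▸ hu)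

/-- For `n = 4`, the shape `(2,1,1)` and `w = s_2 s_3 s_1`, the Demazure crystal is isomorphic to
no crystal of flagged skew tableaux, for any skew shape and any flag. -/
theorem result : ∃ (n : ℕ) (L : Skew) (w : List ℕ), 1 ≤ n ∧ (∀ r, L.mu r = 0) ∧ L.len ≤ n ∧
    Reduced n w ∧ ∀ (S : Skew) (b : ℕ → ℕ), ¬ Iso n L (demazure L w) S (Flagged n S b) := by
  refine ⟨4, lam, [2, 3, 1], by norm_num, fun _ => rfl, by decide, ⟨by decide, by decide +kernel⟩, ?_⟩
  rintro S b ⟨φ, h⟩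
  let x0 : demazure lam [2, 3, 1] := ⟨mk 1 1 2 3, by simp [dem]⟩
  let x1 : demazure lam [2, 3, 1] := ⟨mk 1 1 2 4, by simp [dem]⟩
  let x2 : demazure lam [2, 3, 1] := ⟨mk 1 2 2 3, by simp [dem]⟩
  let x3 : demazure lam [2, 3, 1] := ⟨mk 1 1 3 4, by simp [dem]⟩
  let x4 : demazure lam [2, 3, 1] := ⟨mk 1 3 2 3, by simp [dem]⟩
  let x5 : demazure lam [2, 3, 1] := ⟨mk 1 2 2 4, by simp [dem]⟩
  let x6 : demazure lam [2, 3, 1] := ⟨mk 1 3 2 4, by simp [dem]⟩
  let x7 : demazure lam [2, 3, 1] := ⟨mk 1 3 3 4, by simp [dem]⟩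
  have s1 := step φ h 3 (by norm_num) (by norm_num) x0 x1 e3
  have s2 := step φ h 1 (by norm_num) (by norm_num) x0 x2 e1
  have s3 := step φ h 2 (by norm_num) (by norm_num) x1 x3 e8
  have s4 := step φ h 2 (by norm_num) (by norm_num) x2 x4 e10
  have s5 := step φ h 3 (by norm_num) (by norm_num) x2 x5 e5
  have s6 := step φ h 2 (by norm_num) (by norm_num) x5 x6 e12
  have s7 := step φ h 2 (by norm_num) (by norm_num) x6 x7 e13
  have ne : ∀ u v : demazure lam [2, 3, 1], u.1 ≠ v.1 → (φ u).1 ≠ (φ v).1 := fun u v huv e =>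
    huv (congrArg Subtype.val (φ.injective (Subtype.ext e)))
  refine lat (Flagged 4 S b) (wt S) (wt S (φ x0).1) ?_ ?_ ?_ ?_ (φ x0).1 (φ x1).1 (φ x2).1
    (φ x3).1 (φ x4).1 (φ x5).1 (φ x6).1 (φ x7).1 (φ x3).2 (φ x4).2 (φ x5).2 ?_ rfl s1 s2
    (by omega) (by omega) (by omega) (by omega) (by omega)
    (ne _ _ fun e => by have := mk_inj e; omega) (ne _ _ fun e => by have := mk_inj e; omega)
    (ne _ _ fun e => by have := mk_inj e; omega)
  · rintro T ⟨⟨a1, a2, a3, a4⟩, a5⟩ U ⟨⟨b1, b2, b3, b4⟩, b5⟩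
    refine ⟨⟨fun c hc => ?_, fun c hc => ?_, fun r j k h1 h2 h3 => ?_, fun r s j h1 h2 h3 => ?_⟩,
      fun c hc => ?_⟩ <;> simp only [Pi.inf_apply]
    · have := a1 c hc; have := b1 c hc; omega
    · have := a2 c hc; have := b2 c hc; omega
    · have := a3 r j k h1 h2 h3; have := b3 r j k h1 h2 h3; omega
    · have := a4 r s j h1 h2 h3; have := b4 r s j h1 h2 h3; omega
    · have := a5 c hc; have := b5 c hc; omega
  · rintro T ⟨⟨a1, a2, a3, a4⟩, a5⟩ U ⟨⟨b1, b2, b3, b4⟩, b5⟩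
    refine ⟨⟨fun c hc => ?_, fun c hc => ?_, fun r j k h1 h2 h3 => ?_, fun r s j h1 h2 h3 => ?_⟩,
      fun c hc => ?_⟩ <;> simp only [Pi.sup_apply]
    · have := a1 c hc; have := b1 c hc; omega
    · have := a2 c hc; have := b2 c hc; omega
    · have := a3 r j k h1 h2 h3; have := b3 r j k h1 h2 h3; omega
    · have := a4 r s j h1 h2 h3; have := b4 r s j h1 h2 h3; omega
    · have := a5 c hc; have := b5 c hc; omega
  · intro T U
    unfold wt
    rw [← Finset.sum_add_distrib, ← Finset.sum_add_distrib]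
    refine Finset.sum_congr rfl fun c _ => ?_
    simp only [Pi.inf_apply, Pi.sup_apply]
    omega
  · intro T hT U hU hle hw
    funext c
    by_cases hc : S.Mem c
    · have h1 : wt S T ≤ wt S U := Finset.sum_le_sum fun c _ => hle c
      exact (Finset.sum_eq_sum_iff_of_le fun c _ => hle c).1 (le_antisymm h1 hw) c
        (List.mem_toFinset.2 ((mem_reading S c).2 hc))
    · rw [hT.1.1 c hc, hU.1.1 c hc]
  · intro a ha
    obtain ⟨u, hu⟩ := φ.surjective ⟨a, ha⟩
    have hu' : a = (φ u).1 := (congrArg Subtype.val hu).symm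
    rcases (dem u.1).1 u.2 with e | e | e | e | e | e | e | e
    · have : u = x0 := Subtype.ext e
      subst this; tauto
    · have : u = x1 := Subtype.ext e
      subst this; tauto
    · have : u = x2 := Subtype.ext e
      subst this; tauto
    · have : u = x3 := Subtype.ext e
      subst this; tauto
    · have : u = x4 := Subtype.ext e
      subst this; tauto
    · have : u = x5 := Subtype.ext e
      subst this; tauto
    · have : u = x6 := Subtype.ext e
      subst this; tauto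
    · have : u = x7 := Subtype.ext e
      subst this; tauto

end Pool.Agent.Results.MP_5741ae_al.No
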